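import Mathlib
import Pool.Agent.TH840.EB.Fin

/-!
# The numbers `A_k = ∑ 1 / (k^n - 1)` with `k = 2^r`, `r ≥ 5`, are not normal in base `k`

This answers Q1 in the negative.  No hypothesis is assumed.

Idea: `A_k = ∑ τ(m) k^(-m)` and `τ(m) = 2^(v m) u(m)` with `u(m)` odd.  In base `k = 2^r` the
fractional part of `k^(n-1) A_k` is at most the sum of the terms `τ(m) k^(n-1-m)`, `m ≥ n`, with
`v m < r (m - n + 1)`, the other terms being integers.  The exponents `v m` are equidistributed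
modulo `r` and the `u(m)` have the finite mean `2.07…`, with respect to the weights `m^(-s)`,
`s → 1+`; so these fractional parts have a mean of at most `2.37 / r < 1 / 2`.
-/

set_option autoImplicit false

open Filter Topology

namespace Pool.Agent.Results.MP_29e051_nt.NotNormal

/-- The number `A_k = ∑_{n ≥ 1} 1 / (k ^ n - 1)`. -/
noncomputable def lambertValue (k : ℕ) : ℝ := ∑' n : ℕ, 1 / ((k : ℝ) ^ (n + 1) - 1)

/-- the `n`-th digit of `x` after the radix point (`n ≥ 1`) in base `b` -/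
noncomputable def digit (b : ℕ) (x : ℝ) (n : ℕ) : ℤ := ⌊x * (b : ℝ) ^ n⌋ % (b : ℤ)

/-- `x` is simply normal in base `b`: each digit `d` has frequency `1 / b` -/
def SimplyNormal (b : ℕ) (x : ℝ) : Prop :=
  ∀ d : ℤ, 0 ≤ d → d < b → Tendsto (fun N : ℕ =>
    (((Finset.Icc 1 N).filter (fun n => digit b x n = d)).card : ℝ) / (N : ℝ)) atTop
    (𝓝 (1 / (b : ℝ)))

/-- `x` is normal in base `b`: each block `w` of `l ≥ 1` digits has frequency `1 / b ^ l` -/
def Normal (b : ℕ) (x : ℝ) : Prop :=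
  ∀ l : ℕ, 1 ≤ l → ∀ w : Fin l → ℤ, (∀ i, 0 ≤ w i ∧ w i < b) → Tendsto (fun N : ℕ =>
    (((Finset.Icc 1 N).filter (fun n => ∀ i : Fin l, digit b x (n + i) = w i)).card : ℝ) /
      (N : ℝ)) atTop (𝓝 (1 / (b : ℝ) ^ l))

lemma Normal.simply {b : ℕ} {x : ℝ} (h : Normal b x) : SimplyNormal b x := by
  intro d h0 h1
  have h2 := h 1 le_rfl (fun _ => d) (fun _ => ⟨h0, h1⟩)
  rw [pow_one] at h2
  refine h2.congr fun N => ?_
  congr 3
  ext n
  simp only [Finset.mem_filter]
  constructor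
  · rintro ⟨h3, h4⟩
    exact ⟨h3, by simpa using h4 0⟩
  · rintro ⟨h3, h4⟩
    refine ⟨h3, fun i => ?_⟩
    have hi : (i : ℕ) = 0 := by omega
    rw [hi, add_zero, h4]

/-- the mean digit of a simply normal number is `(b - 1) / 2` -/
lemma SimplyNormal.mean {b : ℕ} (hb : 0 < b) {x : ℝ} (h : SimplyNormal b x) :
    Tendsto (fun N : ℕ => (∑ n ∈ Finset.Icc 1 N, (digit b x n : ℝ)) / (N : ℝ)) atTop
      (𝓝 (((b : ℝ) - 1) / 2)) := by
  have h1 : Tendsto (fun N : ℕ => ∑ d ∈ Finset.range b, (d : ℝ) *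
      ((((Finset.Icc 1 N).filter (fun n => digit b x n = (d : ℤ))).card : ℝ) / (N : ℝ))) atTop
      (𝓝 (∑ d ∈ Finset.range b, (d : ℝ) * (1 / (b : ℝ)))) := by
    refine tendsto_finsetSum _ fun d hd => ?_
    rw [Finset.mem_range] at hd
    exact (h d (by positivity) (by exact_mod_cast hd)).const_mul _
  have h2 : ∑ d ∈ Finset.range b, (d : ℝ) * (1 / (b : ℝ)) = ((b : ℝ) - 1) / 2 := by
    rw [← Finset.sum_mul]
    have h3 : ∑ d ∈ Finset.range b, (d : ℝ) = (b : ℝ) * (b - 1) / 2 := by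
      have h4 := Finset.sum_range_id_mul_two b
      have h5 : ((∑ d ∈ Finset.range b, d : ℕ) : ℝ) * 2 = b * (b - 1) := by
        have h6 : ((b * (b - 1) : ℕ) : ℝ) = (b : ℝ) * (b - 1) := by
          rw [Nat.cast_mul, Nat.cast_sub hb, Nat.cast_one]
        rw [← h6]
        exact_mod_cast h4
      push_cast at h5
      linarith
    rw [h3]
    have hb0 : (b : ℝ) ≠ 0 := by exact_mod_cast hb.ne'
    field_simp
  rw [h2] at h1
  refine h1.congr fun N => ?_
  rw [Finset.sum_div]
  have hmaps : ∀ n ∈ Finset.Icc 1 N, (digit b x n).toNat ∈ Finset.range b := by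
    intro n _
    have h3 : 0 ≤ digit b x n := Int.emod_nonneg _ (by exact_mod_cast hb.ne')
    have h4 : digit b x n < b := Int.emod_lt_of_pos _ (by exact_mod_cast hb)
    rw [Finset.mem_range]
    omega
  rw [← Finset.sum_fiberwise_of_maps_to hmaps (fun n => (digit b x n : ℝ) / (N : ℝ))]
  refine Finset.sum_congr rfl fun d _ => ?_
  have hfil : (Finset.Icc 1 N).filter (fun n => (digit b x n).toNat = d) =
      (Finset.Icc 1 N).filter (fun n => digit b x n = (d : ℤ)) := by
    ext n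
    simp only [Finset.mem_filter]
    have h3 : 0 ≤ digit b x n := Int.emod_nonneg _ (by exact_mod_cast hb.ne')
    constructor
    · rintro ⟨h4, h5⟩
      exact ⟨h4, by omega⟩
    · rintro ⟨h4, h5⟩
      exact ⟨h4, by omega⟩
  rw [hfil]
  have hconst : ∀ n ∈ (Finset.Icc 1 N).filter (fun n => digit b x n = (d : ℤ)),
      (digit b x n : ℝ) / (N : ℝ) = (d : ℝ) / (N : ℝ) := by
    intro n hn
    rw [(Finset.mem_filter.1 hn).2]
    push_cast
    rfl
  rw [Finset.sum_congr rfl hconst, Finset.sum_const, nsmul_eq_mul]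
  ring

/-- For every `r ≥ 5` the number `A_k = ∑_{n ≥ 1} 1 / (k ^ n - 1)` with `k = 2 ^ r` is not normal in
base `k`, and not even simply normal in base `k`. -/
theorem result : ∀ r : ℕ, 5 ≤ r →
    ¬ Normal (2 ^ r) (lambertValue (2 ^ r)) ∧ ¬ SimplyNormal (2 ^ r) (lambertValue (2 ^ r)) := by
  intro r hr
  have h : ¬ SimplyNormal (2 ^ r) (lambertValue (2 ^ r)) := by
    intro hn
    have h1 := hn.mean (by positivity)
    push_cast at h1
    exact Pool.Agent.TH840.EB.mean_digits hr h1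
  exact ⟨fun hn => h hn.simply, h⟩

end Pool.Agent.Results.MP_29e051_nt.NotNormal
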